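import Pool.Agent.H97.RK.Targets

/-!
Row CN2: counting restrictions.
-/

set_option autoImplicit false

namespace Pool.Agent.H70.RKS

open Finset Pool.Agent.H97.RK

/-- the sets with at most `a` elements -/
def ball (n a : ℕ) : Finset (Finset (Fin n)) := univ.filter fun B => B.card ≤ a

theorem card_ball (n a : ℕ) : (ball n a).card ≤ bl n a := by
  unfold ball bl
  calc ((univ : Finset (Finset (Fin n))).filter fun B => B.card ≤ a).card
      ≤ ((range (a + 1)).biUnion fun i => (univ : Finset (Fin n)).powersetCard i).card := by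
        refine card_le_card fun B hB => ?_
        rw [mem_filter] at hB
        rw [mem_biUnion]
        exact ⟨B.card, mem_range.2 (by omega), mem_powersetCard.2 ⟨subset_univ _, rfl⟩⟩
    _ ≤ ∑ i ∈ range (a + 1), ((univ : Finset (Fin n)).powersetCard i).card := card_biUnion_le
    _ = ∑ i ∈ range (a + 1), n.choose i := by
        refine Finset.sum_congr rfl fun i _ => ?_
        rw [card_powersetCard, card_univ, Fintype.card_fin]

/-- the restriction with the code `(D, B, P)` -/
def dec {n : ℕ} (C : Clause n) (D B P : Finset (Fin n)) : Fin n → Option Bool := fun u =>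
  if (u ∈ vs C ∧ u ∈ P) ∨ (u ∉ vs C ∧ u ∉ B) then
    some (xor (if u ∈ vs C then decide ((u, false) ∈ C) else decide (u ∈ P)) (decide (u ∈ D)))
  else none

/-- the restriction with the code `(B, X)` -/
def decB {n : ℕ} (B X : Finset (Fin n)) : Fin n → Option Bool := fun u =>
  if u ∈ B then none else some (decide (u ∈ X))

/-- the value which falsifies a clause -/
theorem fals_val {n : ℕ} {C : Clause n} {z : Fin n → Bool} (hz : Falsified C z) {u : Fin n}
    (hu : u ∈ vs C) : z u = decide ((u, false) ∈ C) := by
  by_cases h : (u, false) ∈ C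
  · have h1 := hz _ h
    rw [decide_eq_true h]
    change z u ≠ false at h1
    cases hb : z u
    · exact absurd hb h1
    · rfl
  · unfold vs at hu
    rw [mem_image] at hu
    obtain ⟨⟨u', s⟩, hl, hu'⟩ := hu
    change u' = u at hu'
    subst hu'
    cases s
    · exact absurd hl h
    · have h1 := hz _ hl
      change z u' ≠ true at h1
      rw [decide_eq_false h]
      cases hb : z u'
      · rfl
      · exact absurd hb h1

theorem xor_val {n : ℕ} {D : Finset (Fin n)} {y x : Fin n → Bool} {u : Fin n}
    (hD : u ∈ D ↔ y u ≠ x u) : xor (y u) (decide (u ∈ D)) = x u := by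
  by_cases h : u ∈ D
  · have h1 := hD.1 h
    rw [decide_eq_true h]
    cases hy : y u <;> cases hx : x u <;> rw [hy, hx] at h1 <;> simp at h1 ⊢
  · have h1 : y u = x u := by
      by_contra h2
      exact h (hD.2 h2)
    rw [decide_eq_false h, h1]
    cases x u <;> rfl

theorem dec_eq {n : ℕ} {C : Clause n} {D B P : Finset (Fin n)} {τ : Fin n → Option Bool}
    {x y z : Fin n → Bool} (hz : Falsified C z) (hx : ∀ u, x u = true ↔ τ u = some true)
    (hzy : ∀ u, τ u ≠ none → z u = y u) (hD : ∀ u, u ∈ D ↔ y u ≠ x u)
    (hB : ∀ u, u ∈ B ↔ τ u = none ∧ u ∉ vs C)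
    (hP : ∀ u, u ∈ P ↔ (u ∈ vs C ∧ τ u ≠ none) ∨ (u ∉ vs C ∧ z u = true)) :
    dec C D B P = τ := by
  funext u
  have hxu : ∀ b, τ u = some b → x u = b := by
    intro b hb
    cases b
    · cases h : x u
      · rfl
      · have := (hx u).1 h
        rw [hb] at this
        exact absurd this (by simp)
    · exact (hx u).2 hb
  unfold dec
  by_cases hv : u ∈ vs C
  · rcases hτ : τ u with _ | b
    · rw [if_neg]
      rintro (⟨-, h1⟩ | ⟨h1, -⟩)
      · rcases (hP u).1 h1 with h2 | h2
        · exact h2.2 hτ
        · exact h2.1 hv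
      · exact h1 hv
    · have ht : τ u ≠ none := by rw [hτ]; simp
      rw [if_pos (Or.inl ⟨hv, (hP u).2 (Or.inl ⟨hv, ht⟩)⟩), if_pos hv, ← fals_val hz hv, hzy u ht,
        xor_val (hD u), hxu b hτ]
  · rcases hτ : τ u with _ | b
    · rw [if_neg]
      rintro (⟨h1, -⟩ | ⟨-, h1⟩)
      · exact hv h1
      · exact h1 ((hB u).2 ⟨hτ, hv⟩)
    · have ht : τ u ≠ none := by rw [hτ]; simp
      have h6 : u ∉ B := fun h1 => ht ((hB u).1 h1).1
      have h7 : decide (u ∈ P) = z u := by
        have h8 : u ∈ P ↔ z u = true := by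
          rw [hP u]
          constructor
          · rintro (h1 | h1)
            · exact absurd h1.1 hv
            · exact h1.2
          · intro h1
            exact Or.inr ⟨hv, h1⟩
        cases hzu : z u
        · exact decide_eq_false fun h9 => by rw [h8, hzu] at h9; exact absurd h9 (by simp)
        · exact decide_eq_true (h8.2 hzu)
      rw [if_pos (Or.inr ⟨hv, h6⟩), if_neg hv, h7, hzy u ht, xor_val (hD u), hxu b hτ]

theorem decB_eq {n : ℕ} {B X : Finset (Fin n)} {τ : Fin n → Option Bool}
    (hB : ∀ u, u ∈ B ↔ τ u = none) (hX : ∀ u, u ∈ X ↔ τ u = some true) : decB B X = τ := by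
  funext u
  unfold decB
  rcases hτ : τ u with _ | b
  · rw [if_pos ((hB u).2 hτ)]
  · rw [if_neg (fun h => by rw [hB u, hτ] at h; exact absurd h (by simp))]
    have h5 : u ∈ X ↔ b = true := by
      rw [hX u, hτ]
      simp
    rw [decide_eq_decide.2 h5]
    cases b <;> rfl

theorem pf_CN2 : T_CN2 := by
  classical
  intro n S g q a line h
  have h3 : (univ : Finset (Fin n → Option Bool)).card = 3 ^ n := by
    rw [card_univ, Fintype.card_fun, Fintype.card_option, Fintype.card_bool, Fintype.card_fin]
  have hsub : (univ : Finset (Fin n → Option Bool)) ⊆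
      ((range S ×ˢ (ball n q ×ˢ (ball n g ×ˢ (univ : Finset (Finset (Fin n)))))).image
        fun p => dec (line p.1) p.2.1 p.2.2.1 p.2.2.2) ∪
      ((ball n a ×ˢ (univ : Finset (Finset (Fin n)))).image fun p => decB p.1 p.2) := by
    intro τ _
    rw [mem_union, mem_image, mem_image]
    obtain ⟨A, hA⟩ : ∃ A : Finset (Fin n), ∀ u, u ∈ A ↔ τ u ≠ none :=
      ⟨univ.filter fun u => τ u ≠ none, fun u => by simp⟩
    by_cases hAc : A.card + a ≤ n
    · left
      obtain ⟨i, hi, y, z, hd, hzy, hz, hg⟩ := h (fun u => decide (τ u = some true)) A hAc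
      refine ⟨(i, univ.filter (fun u => y u ≠ decide (τ u = some true)),
        (A ∪ vs (line i))ᶜ, univ.filter (fun u => (u ∈ vs (line i) ∧ τ u ≠ none) ∨
          (u ∉ vs (line i) ∧ z u = true))), ?_, ?_⟩
      · rw [mem_product, mem_product, mem_product]
        refine ⟨mem_range.2 hi, ?_, ?_, mem_univ _⟩
        · exact mem_filter.2 ⟨mem_univ _, hd⟩
        · refine mem_filter.2 ⟨mem_univ _, ?_⟩
          change ((A ∪ vs (line i))ᶜ).card ≤ g
          rw [card_compl, Fintype.card_fin]
          omega
      · refine dec_eq (x := fun u => decide (τ u = some true)) (y := y) hz (fun u => by simp)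
          (fun u hu => hzy u ((hA u).2 hu)) (fun u => by simp) (fun u => ?_) (fun u => by simp)
        rw [mem_compl, mem_union, hA]
        tauto
    · right
      refine ⟨(Aᶜ, univ.filter (fun u => τ u = some true)), ?_, ?_⟩
      · rw [mem_product]
        refine ⟨mem_filter.2 ⟨mem_univ _, ?_⟩, mem_univ _⟩
        change (Aᶜ).card ≤ a
        rw [card_compl, Fintype.card_fin]
        omega
      · refine decB_eq (fun u => ?_) (fun u => by simp)
        rw [mem_compl, hA]
        tauto
  have hpow : (univ : Finset (Finset (Fin n))).card = 2 ^ n := by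
    rw [card_univ, Fintype.card_finset, Fintype.card_fin]
  calc 3 ^ n = (univ : Finset (Fin n → Option Bool)).card := h3.symm
    _ ≤ _ := card_le_card hsub
    _ ≤ _ := card_union_le _ _
    _ ≤ (range S ×ˢ (ball n q ×ˢ (ball n g ×ˢ (univ : Finset (Finset (Fin n)))))).card +
        (ball n a ×ˢ (univ : Finset (Finset (Fin n)))).card :=
        add_le_add card_image_le card_image_le
    _ = S * ((ball n q).card * ((ball n g).card * 2 ^ n)) + (ball n a).card * 2 ^ n := by
        rw [card_product, card_product, card_product, card_product, card_range, hpow]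
    _ ≤ S * (bl n q * (bl n g * 2 ^ n)) + bl n a * 2 ^ n := by
        gcongr
        · exact card_ball n q
        · exact card_ball n g
        · exact card_ball n a
    _ = S * (2 ^ n * bl n g * bl n q) + 2 ^ n * bl n a := by ring

end Pool.Agent.H70.RKS
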